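import Pool.Agent.H68.QT.Targets
import Pool.Agent.H90.QC.Par

/-!
# PAT: the parameters for towers
-/

set_option autoImplicit false

namespace Pool.Agent.H90.QT

open Finset Filter Pool.Agent.H70.OQ Pool.Agent.H68.QC Pool.Agent.H68.QT
open Pool.Agent.H90.QC (ev_pow ev_rpow ev_floor par erho_le exp_bd nod_le elam_le qr_le)

/-- the weight of the powers of two -/
noncomputable def SS (C n : ℕ) (δ : ℝ) : ℝ := ((C : ℝ) + 1) ^ 2 * 2 ^ ((1 - 2 * δ) * n)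

theorem one_le_SS (C n : ℕ) {δ : ℝ} (hδ2 : δ ≤ 1 / 2) : 1 ≤ SS C n δ := by
  have hC0 : (0 : ℝ) ≤ C := Nat.cast_nonneg C
  have h1 : (1 : ℝ) ≤ ((C : ℝ) + 1) ^ 2 := one_le_pow₀ (by linarith)
  have h2 : (1 : ℝ) ≤ 2 ^ ((1 - 2 * δ) * n) := by
    apply Real.one_le_rpow (by norm_num)
    apply mul_nonneg (by linarith) (by positivity)
  exact one_le_mul_of_one_le_of_one_le h1 h2

/-- few live children -/
theorem q2_le (C I B : ℕ) {δ : ℝ} (hδ : 0 < δ) (hδ2 : δ ≤ 1 / 2) : ∀ᶠ n : ℕ in atTop,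
    ∀ i ≤ I, ∀ W : ℕ, 1 ≤ W → W ≤ n ^ B →
      ((2 : ℝ) ^ nod n i) ^ 2 *
        (1 - 1 / (2 * 10 ^ 4 * (SS C n δ * W * W))) ^ 2 ^ (n - ⌊δ * n⌋₊) ≤ 1 / 2 ^ n := by
  filter_upwards [ev_rpow ((2 * 2 ^ (I + 1) + 1) * (2 * 10 ^ 4 * ((C : ℝ) + 1) ^ 2)) (2 * B + 1) hδ]
    with n he i hi W hW1 hW
  have hg : ⌊δ * n⌋₊ ≤ n := by
    have : δ * n ≤ n := mul_le_of_le_one_left (by positivity) (by linarith)
    exact (Nat.floor_le_floor this).trans (by simp)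
  set g := ⌊δ * n⌋₊ with hgdef
  have hWR : (1 : ℝ) ≤ W := by exact_mod_cast hW1
  have hW0 : (0 : ℝ) < W := by linarith
  have hWn : (W : ℝ) ≤ (n : ℝ) ^ B := by exact_mod_cast hW
  have hS1 := one_le_SS C n hδ2
  set S := SS C n δ with hS
  have hS0 : 0 < S := by linarith
  have hden : 1 ≤ S * W * W :=
    one_le_mul_of_one_le_of_one_le (one_le_mul_of_one_le_of_one_le hS1 hWR) hWR
  have hden0 : 0 < 2 * 10 ^ 4 * (S * W * W) := by linarith
  set q2 : ℝ := 1 / (2 * 10 ^ 4 * (S * W * W)) with hq2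
  have hq0 : 0 < q2 := one_div_pos.2 hden0
  have hq1 : q2 ≤ 1 := by
    rw [hq2, div_le_one hden0]
    linarith
  have hM : ((2 * nod n i + n : ℕ) : ℝ) ≤ q2 * ((2 ^ (n - g) : ℕ) : ℝ) := by
    have h1 : ((2 * nod n i + n : ℕ) : ℝ) ≤ (2 * 2 ^ (I + 1) + 1) * n := by
      have h2 := nod_le (n := n) hi
      have h3 : 2 * nod n i + n ≤ (2 * 2 ^ (I + 1) + 1) * n := by
        calc 2 * nod n i + n ≤ 2 * (2 ^ (I + 1) * n) + n := by omega
          _ = (2 * 2 ^ (I + 1) + 1) * n := by ring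
      exact_mod_cast h3
    have h4 : (2 : ℝ) ^ ((1 - δ) * n) ≤ ((2 ^ (n - g) : ℕ) : ℝ) := by
      push_cast
      rw [← Real.rpow_natCast]
      apply Real.rpow_le_rpow_of_exponent_le (by norm_num)
      rw [Nat.cast_sub hg]
      have h5 : (g : ℝ) ≤ δ * n := Nat.floor_le (by positivity)
      linarith
    refine h1.trans ((?_ : _ ≤ q2 * (2 : ℝ) ^ ((1 - δ) * n)).trans
      (mul_le_mul_of_nonneg_left h4 hq0.le))
    rw [hq2, one_div_mul_eq_div, le_div_iff₀ hden0]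
    have h6 : (2 : ℝ) ^ ((1 - δ) * n) = 2 ^ ((1 - 2 * δ) * n) * 2 ^ (δ * n) := by
      rw [← Real.rpow_add (by norm_num)]
      congr 1
      ring
    have h7 : (0 : ℝ) ≤ 2 ^ ((1 - 2 * δ) * n) := by positivity
    have h8 : S * W * W ≤ S * (n : ℝ) ^ B * (n : ℝ) ^ B := by
      have h9 : S * W ≤ S * (n : ℝ) ^ B := mul_le_mul_of_nonneg_left hWn hS0.le
      exact mul_le_mul h9 hWn hW0.le (mul_nonneg hS0.le (by positivity))
    have h10 : (0 : ℝ) ≤ (2 * 2 ^ (I + 1) + 1) * n := by positivity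
    calc (2 * 2 ^ (I + 1) + 1) * (n : ℝ) * (2 * 10 ^ 4 * (S * W * W))
        ≤ (2 * 2 ^ (I + 1) + 1) * (n : ℝ) *
          (2 * 10 ^ 4 * (S * (n : ℝ) ^ B * (n : ℝ) ^ B)) := by
          apply mul_le_mul_of_nonneg_left _ h10
          linarith
      _ = 2 ^ ((1 - 2 * δ) * n) * ((2 * 2 ^ (I + 1) + 1) *
          (2 * 10 ^ 4 * ((C : ℝ) + 1) ^ 2) * (n : ℝ) ^ (2 * B + 1)) := by
          rw [hS, SS]; ring
      _ ≤ 2 ^ ((1 - 2 * δ) * n) * 2 ^ (δ * n) := mul_le_mul_of_nonneg_left he h7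
      _ = 2 ^ ((1 - δ) * n) := h6.symm
  have h1 := exp_bd hq1 hM
  calc ((2 : ℝ) ^ nod n i) ^ 2 * (1 - q2) ^ 2 ^ (n - g)
      ≤ ((2 : ℝ) ^ nod n i) ^ 2 * (1 / 2 ^ (2 * nod n i + n)) :=
        mul_le_mul_of_nonneg_left h1 (by positivity)
    _ = 1 / 2 ^ n := by
        rw [pow_add, mul_comm 2 (nod n i), pow_mul]
        field_simp

theorem W_le (i0 c B n m t0 : ℕ) (hn : 4 * i0 + 80 ≤ n) (hm : m ≤ n ^ c) (ht : t0 ≤ n ^ B) :
    t0 + (2 * (m + 1) * (i0 + 3) + n + 60) ≤ n ^ (B + c + 3) := by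
  have hn0 : 0 < n := by omega
  have h1 : m ≤ n ^ (B + c + 2) := hm.trans (Nat.pow_le_pow_right hn0 (by omega))
  have h2 : n ≤ n ^ (B + c + 2) := Nat.le_self_pow (by omega) n
  have h3 : 1 ≤ n ^ (B + c + 2) := Nat.one_le_pow _ _ hn0
  have h0 : t0 ≤ n ^ (B + c + 2) := ht.trans (Nat.pow_le_pow_right hn0 (by omega))
  have h4 : m * (2 * i0 + 6) ≤ n ^ (B + c + 2) * (2 * i0 + 6) := Nat.mul_le_mul_right _ h1
  have h5 : (2 * i0 + 66) * 1 ≤ (2 * i0 + 66) * n ^ (B + c + 2) := Nat.mul_le_mul_left _ h3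
  calc t0 + (2 * (m + 1) * (i0 + 3) + n + 60)
      = t0 + m * (2 * i0 + 6) + (2 * i0 + 66) * 1 + n := by ring
    _ ≤ n ^ (B + c + 2) + n ^ (B + c + 2) * (2 * i0 + 6) + (2 * i0 + 66) * n ^ (B + c + 2) +
        n ^ (B + c + 2) := by omega
    _ = (4 * i0 + 74) * n ^ (B + c + 2) := by ring
    _ ≤ n * n ^ (B + c + 2) := Nat.mul_le_mul_right _ (by omega)
    _ = n ^ (B + c + 3) := by ring

theorem eL_le {m i n W i0 : ℕ} (hi : i ≤ i0) (h : 2 * (m + 1) * (i0 + 3) + n ≤ W) :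
    eL m (i + 1) W ≤ 4 * (1 / 2 ^ n) := by
  unfold eL
  have h0 : 2 * (m + 1) * (i + 1) ≤ 2 * (m + 1) * (i0 + 3) := Nat.mul_le_mul_left _ (by omega)
  have h1 : (2 : ℝ) ^ (2 * (m + 1) * (i + 1) + n) ≤ 2 ^ W :=
    pow_le_pow_right₀ (by norm_num) (by omega)
  rw [pow_add] at h1
  have h2 : (2 : ℝ) ^ (2 * (m + 1) * (i + 1)) * (4 / 2 ^ W) =
      4 * 2 ^ (2 * (m + 1) * (i + 1)) / 2 ^ W := by ring
  have h3 : 4 * (1 / (2 : ℝ) ^ n) = 4 / 2 ^ n := by ring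
  rw [h2, h3, div_le_div_iff₀ (by positivity) (by positivity)]
  linarith

theorem eC_le {m i n W i0 : ℕ} (hi : i ≤ i0) (h : 2 * (m + 1) * (i0 + 3) + n ≤ W) :
    eC m i W ≤ 5 * (1 / 2 ^ n) := by
  unfold eC
  have h0 : 2 * (m + 1) * (i + 1) ≤ 2 * (m + 1) * (i0 + 3) := Nat.mul_le_mul_left _ (by omega)
  have h1 : (2 : ℝ) ^ (2 * (m + 1) * (i + 1) + n) ≤ 2 ^ (W + 1) :=
    pow_le_pow_right₀ (by norm_num) (by omega)
  rw [pow_add] at h1
  have h2 : (2 : ℝ) ^ (2 * (m + 1) * (i + 1)) * (5 / 2 ^ (W + 1)) =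
      5 * 2 ^ (2 * (m + 1) * (i + 1)) / 2 ^ (W + 1) := by ring
  have h3 : 5 * (1 / (2 : ℝ) ^ n) = 5 / 2 ^ n := by ring
  rw [h2, h3, div_le_div_iff₀ (by positivity) (by positivity)]
  linarith

theorem pf_PAT : T_PAT := by
  intro k i0 c C ε hε
  obtain ⟨B, hB⟩ := par k c
  set δ := min ε (1 / 2) with hδdef
  have hδ : 0 < δ := lt_min hε (by norm_num)
  have hδε : δ ≤ ε := min_le_left _ _
  have hδ2 : δ ≤ 1 / 2 := min_le_right _ _
  filter_upwards [elam_le (i0 + k) (B + c + 3) hδ (by linarith), q2_le C i0 (B + c + 3) hδ hδ2,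
    ev_pow (100 * (2 * k + 16 * (i0 + 1))) 0 (r := 2) (by norm_num),
    ev_rpow (6400 * (2 * (576 * ((C : ℝ) + 1) ^ 2) + 6)) (2 * (B + c + 3)) (δ := 2 * δ)
      (by linarith),
    eventually_ge_atTop (2 * k + 23 + (4 * i0 + 80))] with n hel hqq he1 he2 hn m hm1 hm
  have hn0 : 0 < n := by omega
  obtain ⟨hg, hel⟩ := hel
  obtain ⟨t, w, ht, ht1, htw, hw, hwB, htB⟩ := hB n (by omega) m hm1 hm
  set g := ⌊δ * n⌋₊ with hgdef
  set W := t 0 + (2 * (m + 1) * (i0 + 3) + n + 60) with hW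
  have hWn : W ≤ n ^ (B + c + 3) :=
    W_le i0 c B n m (t 0) (by omega) hm (htB 0 (Nat.zero_le _))
  have hW1 : 1 ≤ W := by omega
  have hWt : t 0 ≤ W := Nat.le_add_right _ _
  have hWb : 2 * (m + 1) * (i0 + 3) + n ≤ W := by omega
  have hWR : (1 : ℝ) ≤ W := by exact_mod_cast hW1
  have hW0 : (0 : ℝ) < W := by linarith
  have hWnR : (W : ℝ) ≤ (n : ℝ) ^ (B + c + 3) := by exact_mod_cast hWn
  clear_value W
  set b := B + c + 3 with hb
  clear_value b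
  have hS1 := one_le_SS C n hδ2
  have hPS := qr_le C hδε hδ2 n
  have hSdef : SS C n δ = ((C : ℝ) + 1) ^ 2 * 2 ^ ((1 - 2 * δ) * n) := rfl
  rw [← hSdef] at hPS
  set S := SS C n δ with hS
  have hS0 : 0 < S := by linarith
  have hden : 1 ≤ S * W * W :=
    one_le_mul_of_one_le_of_one_le (one_le_mul_of_one_le_of_one_le hS1 hWR) hWR
  have hden0 : 0 < 2 * 10 ^ 4 * (S * W * W) := by linarith
  set P : ℝ := (C * 2 ^ ((1 / 2 - ε) * n) : ℝ) ^ 2 with hP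
  have hP0 : 0 ≤ P := sq_nonneg _
  have hPS' : P ≤ S := by
    refine le_trans ?_ hPS
    rw [hP]
    have h2 : (0 : ℝ) ≤ C * 2 ^ ((1 / 2 - ε) * n) := by positivity
    exact pow_le_pow_left₀ h2 (by linarith) 2
  set m0 := ⌈576 * P * W⌉₊ with hm0
  have hm0' : (m0 : ℝ) ≤ 576 * P * W + 1 := (Nat.ceil_lt_add_one (by positivity)).le
  refine ⟨t, w, W, 64 * W * (2 * m0 + 4), g, m0, 1 / (2 * 10 ^ 4 * (S * W * W)), ht, ht1, htw, hg,
    hW1, hWt, one_div_pos.2 hden0, ?_, ?_, Nat.le_ceil _, ?_, ?_, ?_⟩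
  · apply one_div_le_one_div_of_le (by norm_num)
    linarith
  · set Q : ℝ := (C * 2 ^ ((1 / 2 - ε) * n) + 1 : ℝ) ^ 2 with hQ
    have h2 : 2 * 10 ^ 4 * (1 / (2 * 10 ^ 4 * (S * W * W))) * Q * (W : ℝ) * W = Q / S := by
      field_simp
    rw [h2, div_le_one hS0]
    exact hPS
  · push_cast
    have h1 : 64 * (W : ℝ) * (2 * m0 + 4) * (1 / (64 * W)) = 2 * m0 + 4 := by
      field_simp
    rw [h1]
    linarith
  · have h1 : ((100 * (64 * W * (2 * m0 + 4)) : ℕ) : ℝ) ≤ ((2 ^ n : ℕ) : ℝ) := by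
      push_cast
      have h7 : (1 : ℝ) ≤ 2 ^ ((1 - 2 * δ) * n) := by
        apply Real.one_le_rpow (by norm_num)
        apply mul_nonneg (by linarith) (by positivity)
      have hnB : (1 : ℝ) ≤ (n : ℝ) ^ b := hWR.trans hWnR
      have h2 : (m0 : ℝ) ≤ 576 * S * (n : ℝ) ^ b + 1 := by
        refine hm0'.trans ?_
        have h3 : 576 * P * W ≤ 576 * S * (n : ℝ) ^ b := by
          apply mul_le_mul (by linarith) hWnR hW0.le
          linarith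
        linarith
      have h4 : (2 * m0 + 4 : ℝ) ≤
          2 ^ ((1 - 2 * δ) * n) * ((2 * (576 * ((C : ℝ) + 1) ^ 2) + 6) * (n : ℝ) ^ b) := by
        have h5 : (1 : ℝ) ≤ 2 ^ ((1 - 2 * δ) * n) * (n : ℝ) ^ b :=
          one_le_mul_of_one_le_of_one_le h7 hnB
        calc (2 * m0 + 4 : ℝ) ≤ 2 * (576 * S * (n : ℝ) ^ b) + 6 * 1 := by linarith
          _ ≤ 2 * (576 * S * (n : ℝ) ^ b) + 6 * (2 ^ ((1 - 2 * δ) * n) * (n : ℝ) ^ b) := by
              linarith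
          _ = _ := by rw [hSdef]; ring
      have h6 : (2 : ℝ) ^ n = 2 ^ ((1 - 2 * δ) * n) * 2 ^ (2 * δ * n) := by
        rw [← Real.rpow_add (by norm_num), ← Real.rpow_natCast]
        congr 1
        ring
      calc (100 * (64 * (W : ℝ) * (2 * m0 + 4)))
          ≤ 100 * (64 * (n : ℝ) ^ b * (2 ^ ((1 - 2 * δ) * n) *
            ((2 * (576 * ((C : ℝ) + 1) ^ 2) + 6) * (n : ℝ) ^ b))) := by
            have h8 : (0 : ℝ) ≤ 2 * m0 + 4 := by positivity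
            have h9 : 64 * (W : ℝ) * (2 * m0 + 4) ≤ 64 * (n : ℝ) ^ b * (2 ^ ((1 - 2 * δ) * n) *
                ((2 * (576 * ((C : ℝ) + 1) ^ 2) + 6) * (n : ℝ) ^ b)) := by
              apply mul_le_mul (by linarith) h4 h8 (by positivity)
            linarith
        _ = 2 ^ ((1 - 2 * δ) * n) * (6400 * (2 * (576 * ((C : ℝ) + 1) ^ 2) + 6) *
            (n : ℝ) ^ (2 * b)) := by
            rw [mul_comm 2 b, pow_mul]; ring
        _ ≤ 2 ^ ((1 - 2 * δ) * n) * 2 ^ (2 * δ * n) :=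
            mul_le_mul_of_nonneg_left he2 (by positivity)
        _ = 2 ^ n := h6.symm
    exact_mod_cast h1
  · -- the sum of the errors
    have hp : (0 : ℝ) < 1 / 2 ^ n := by positivity
    have s1 : ∑ r ∈ range k, (erho m (t (r + 1)) (w r) r +
        elam n (i0 + r) g (1 / (64 * w r))) ≤ k * (2 * (1 / 2 ^ n)) := by
      have h1 : ∀ r ∈ range k, erho m (t (r + 1)) (w r) r +
          elam n (i0 + r) g (1 / (64 * w r)) ≤ 2 * (1 / 2 ^ n) := by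
        intro r hr
        have hr' : r < k := mem_range.1 hr
        have h2 := erho_le (hw r hr')
        have hwb : w r ≤ n ^ b := (hwB r hr').2.trans (Nat.pow_le_pow_right hn0 (by omega))
        have h3 := hel (i0 + r) (by omega) (w r) (hwB r hr').1 hwb
        linarith
      calc _ ≤ ∑ r ∈ range k, 2 * ((1 : ℝ) / 2 ^ n) := sum_le_sum h1
        _ = k * (2 * (1 / 2 ^ n)) := by rw [sum_const, card_range, nsmul_eq_mul]
    have s2 : ∑ i ∈ range (i0 + 1), (eL m (i + 1) W + ((2 : ℝ) ^ nod n i) ^ 2 *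
        (1 - 1 / (2 * 10 ^ 4 * (S * W * W))) ^ 2 ^ (n - g) +
        2 * eC m i W + elam n i g (1 / (64 * W))) ≤ ((i0 : ℝ) + 1) * (16 * (1 / 2 ^ n)) := by
      have h1 : ∀ i ∈ range (i0 + 1), eL m (i + 1) W + ((2 : ℝ) ^ nod n i) ^ 2 *
          (1 - 1 / (2 * 10 ^ 4 * (S * W * W))) ^ 2 ^ (n - g) +
          2 * eC m i W + elam n i g (1 / (64 * W)) ≤ 16 * (1 / 2 ^ n) := by
        intro i hi
        have hi' : i ≤ i0 := by have := mem_range.1 hi; omega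
        have a1 := eL_le (m := m) hi' hWb
        have a2 := hqq i hi' W hW1 hWn
        have a3 := eC_le (m := m) hi' hWb
        have a4 := hel i (by omega) W hW1 hWn
        linarith
      calc _ ≤ ∑ i ∈ range (i0 + 1), 16 * ((1 : ℝ) / 2 ^ n) := sum_le_sum h1
        _ = ((i0 : ℝ) + 1) * (16 * (1 / 2 ^ n)) := by
            rw [sum_const, card_range, nsmul_eq_mul]; push_cast; ring
    have s5 : (2 * k + 16 * (i0 + 1)) * (1 / (2 : ℝ) ^ n) ≤ 1 / 100 := by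
      rw [mul_one_div, div_le_div_iff₀ (by positivity) (by norm_num)]
      simp only [pow_zero, mul_one] at he1
      linarith
    have s6 : k * (2 * (1 / (2 : ℝ) ^ n)) + (i0 + 1) * (16 * (1 / 2 ^ n)) =
        (2 * k + 16 * (i0 + 1)) * (1 / 2 ^ n) := by ring
    linarith

end Pool.Agent.H90.QT
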